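import Pool.Agent.W360.MQ.Stm

/-! Exchanging the roles of `u_z` and `u_zbar` by complex conjugation. -/

set_option autoImplicit false

namespace Pool.Agent.W563.MQ.Swap

open MeasureTheory Set Filter Topology
open Pool.Agent.W488.IW (V Idx gd box tp ek ka kb)
open Pool.Agent.W360.BQ (QCF)
open Pool.Agent.W360.MQ
open ComplexConjugate

/-- the conjugated coefficients -/
noncomputable def c2 (c : Idx → ℂ) (k : Idx) : ℂ := conj (c (-k))

lemma ka_neg (k : Idx) : conj (ka (-k)) = kb k := by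
  unfold ka kb
  simp only [map_mul, map_sub, Complex.conj_ofReal, Complex.conj_I, Prod.fst_neg, Prod.snd_neg,
    Int.cast_neg, map_neg, map_intCast]
  ring

lemma kb_neg (k : Idx) : conj (kb (-k)) = ka k := by
  unfold ka kb
  simp only [map_mul, map_add, Complex.conj_ofReal, Complex.conj_I, Prod.fst_neg, Prod.snd_neg,
    Int.cast_neg, map_neg, map_intCast]
  ring

lemma ek_neg (k : Idx) (x : V) : conj (ek (-k) x) = ek k x := by
  unfold ek
  rw [← Complex.exp_conj]
  congr 1
  simp only [map_mul, map_add, Complex.conj_ofReal, Complex.conj_I, Prod.fst_neg, Prod.snd_neg,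
    Int.cast_neg, map_neg, map_intCast, map_ofNat]
  ring

lemma mem_box_neg (N : ℕ) (k : Idx) : -k ∈ box N ↔ k ∈ box N := by
  unfold box
  simp only [Finset.mem_product, Finset.mem_Icc, Prod.fst_neg, Prod.snd_neg]
  constructor <;> (rintro ⟨⟨h1, h2⟩, h3, h4⟩; exact ⟨⟨by omega, by omega⟩, by omega, by omega⟩)

lemma tp_conj (N : ℕ) (w w' : Idx → ℂ) (h : ∀ k, conj (w (-k)) = w' k) (c : Idx → ℂ) (x : V) :
    conj (tp (box N) w c x) = tp (box N) w' (c2 c) x := by
  unfold tp
  rw [map_sum]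
  refine Finset.sum_nbij' (fun k => -k) (fun k => -k) ?_ ?_ ?_ ?_ ?_
  · intro k hk; exact (mem_box_neg N k).2 hk
  · intro k hk; exact (mem_box_neg N k).2 hk
  · intro k _; exact neg_neg k
  · intro k _; exact neg_neg k
  · intro k _
    have h1 := h (-k)
    rw [neg_neg] at h1
    have h2 := ek_neg (-k) x
    rw [neg_neg] at h2
    rw [map_mul, map_mul, h1, h2]
    unfold c2
    rw [neg_neg]

theorem main : S_SWAP := by
  intro f hf F0 N c
  have key := hf (conj F0.2, conj F0.1) N (c2 c)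
  have e1 : ∀ x : V, ‖((conj F0.2, conj F0.1) + gd (box N) (c2 c) x : ℂ × ℂ).1‖
      = ‖(F0 + gd (box N) c x).2‖ := by
    intro x
    have : ((conj F0.2, conj F0.1) + gd (box N) (c2 c) x : ℂ × ℂ).1
        = conj ((F0 + gd (box N) c x).2) := by
      show conj F0.2 + tp (box N) ka (c2 c) x = conj (F0.2 + tp (box N) kb c x)
      rw [map_add, tp_conj N kb ka kb_neg]
    rw [this, Complex.norm_conj]
  have e2 : ∀ x : V, ‖((conj F0.2, conj F0.1) + gd (box N) (c2 c) x : ℂ × ℂ).2‖
      = ‖(F0 + gd (box N) c x).1‖ := by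
    intro x
    have : ((conj F0.2, conj F0.1) + gd (box N) (c2 c) x : ℂ × ℂ).2
        = conj ((F0 + gd (box N) c x).1) := by
      show conj F0.1 + tp (box N) kb (c2 c) x = conj (F0.1 + tp (box N) ka c x)
      rw [map_add, tp_conj N ka kb ka_neg]
    rw [this, Complex.norm_conj]
  have e3 : (fun F : ℂ × ℂ => f ‖F.1‖ ‖F.2‖) (conj F0.2, conj F0.1)
      = (fun F : ℂ × ℂ => f ‖F.2‖ ‖F.1‖) F0 := by
    show f ‖conj F0.2‖ ‖conj F0.1‖ = f ‖F0.2‖ ‖F0.1‖
    rw [Complex.norm_conj, Complex.norm_conj]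
  rw [e3] at key
  refine key.trans (le_of_eq ?_)
  congr 1
  funext x
  show f _ _ = f _ _
  rw [e1 x, e2 x]

end Pool.Agent.W563.MQ.Swap
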